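import Pool.Agent.helper85.SQ.Defs
import Pool.Agent.helper85.BVP.Pairs

/-!
# Upper bound for the number of `a ≤ N` with `a p² - 1` prime
-/

namespace Pool.Agent.helper85.SQ

open Finset Pool.Agent.Lib.BrunHooley Pool.Agent.helper85.BVP

theorem one_le : ∃ (C : ℝ) (D : ℕ), 0 < C ∧ ∀ N : ℕ, D ≤ N → ∀ p : ℕ, p.Prime →
    (#{a ∈ Ioc 0 N | (a * p ^ 2 - 1).Prime} : ℝ) ≤ C * (N / Real.log N) := by
  classical
  obtain ⟨B, hB⟩ := interval_sieve 1
  refine ⟨16 * (B + 1) + 33, max 3 (4 ^ (B + 1)), by positivity, ?_⟩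
  intro N hN p hp
  have hN3 : 3 ≤ N := le_trans (le_max_left _ _) hN
  have hN4 : 4 ^ (B + 1) ≤ N := le_trans (le_max_right _ _) hN
  obtain ⟨r, hr1, hr2⟩ := pick_r B N hN4
  set z := Z r with hz
  have hz2 : 2 ≤ z := two_le_Z r
  have hNr : (0 : ℝ) < N := by exact_mod_cast (by omega : 0 < N)
  have hlog1 : 1 ≤ Real.log N := by
    rw [Real.le_log_iff_exp_le hNr]
    have h1 := Real.exp_one_lt_d9
    have h2 : (3 : ℝ) ≤ N := by exact_mod_cast hN3
    linarith
  have hlogN : 0 < Real.log N := by linarith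
  have hzz : z ^ 2 ≤ N := (Nat.pow_le_pow_right (by omega) (by omega)).trans hr1
  -- the classes
  set C : ℕ → Finset ℕ := fun l => if l ∣ p then ∅ else {((p : ZMod l) ^ 2)⁻¹.val} with hC
  have hCc : ∀ l, #(C l) ≤ 1 := by
    intro l; simp only [hC]; split_ifs <;> simp
  have hClt : ∀ l, l.Prime → ∀ x ∈ C l, x < l := by
    intro l hl x hx
    have : NeZero l := ⟨hl.ne_zero⟩
    simp only [hC] at hx
    split_ifs at hx with h
    · simp at hx
    · rw [mem_singleton] at hx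
      rw [hx]
      exact ZMod.val_lt _
  have hCl : ∀ l, l.Prime → #(C l) < l := fun l hl => lt_of_le_of_lt (hCc l) hl.one_lt
  have hs := (hB r 0 N C hClt hCc hCl).2
  have hprod := prod_bt z p (by omega) hp.ne_zero (fun l => #(C l))
    (fun l _ hlp => by simp only [hC, if_neg hlp, card_singleton]; exact le_rfl) hCl
  have hhp : h p ≤ 2 := by
    have := h_prime_pow (l := p) (j := 1) hp
    simpa using this
  -- the exceptional `a`
  set S := {a ∈ Ioc 0 N | (a * p ^ 2 - 1).Prime} with hS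
  have hsub : S ⊆ sifted 0 N z C ∪ Ioc 0 (z + 1) := by
    intro a ha
    rw [hS, mem_filter, mem_Ioc] at ha
    obtain ⟨⟨ha0, haN⟩, hpr⟩ := ha
    rw [mem_union, mem_Ioc]
    by_cases hsmall : a ≤ z + 1
    · right; exact ⟨ha0, hsmall⟩
    left
    push Not at hsmall
    rw [sifted, mem_filter, zero_add, mem_Ioc]
    refine ⟨⟨ha0, haN⟩, ?_⟩
    intro l hl hmem
    obtain ⟨hlz, hlp⟩ := Nat.mem_primesLE.mp hl
    have : Fact l.Prime := ⟨hlp⟩
    have : NeZero l := ⟨hlp.ne_zero⟩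
    simp only [hC] at hmem
    split_ifs at hmem with hlE
    · simp at hmem
    rw [mem_singleton] at hmem
    have hcast : (a : ZMod l) = ((p : ZMod l) ^ 2)⁻¹ := by
      have := congrArg (fun t : ℕ => (t : ZMod l)) hmem
      simp only [ZMod.natCast_mod, ZMod.natCast_val, ZMod.cast_id', id_eq] at this
      exact this
    have hpl : (p : ZMod l) ≠ 0 := by
      intro h; rw [ZMod.natCast_eq_zero_iff] at h; exact hlE h
    have h1 : ((a * p ^ 2 : ℕ) : ZMod l) = 1 := by
      push_cast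
      rw [hcast]
      field_simp
    have hpos : 1 ≤ a * p ^ 2 := Nat.mul_pos ha0 (pow_pos hp.pos 2)
    have h2 : l ∣ a * p ^ 2 - 1 := by
      rw [← ZMod.natCast_eq_zero_iff, Nat.cast_sub hpos, h1, Nat.cast_one, sub_self]
    have h3 : l = a * p ^ 2 - 1 := (Nat.prime_dvd_prime_iff_eq hlp hpr).mp h2
    have h4 : a ≤ a * p ^ 2 := Nat.le_mul_of_pos_right a (pow_pos hp.pos 2)
    omega
  have hcard : (#S : ℝ) ≤ #(sifted 0 N z C) + (z + 1) := by
    have h1 := (card_le_card hsub).trans (card_union_le _ _)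
    rw [Nat.card_Ioc, Nat.sub_zero] at h1
    exact_mod_cast h1
  -- numerics
  have hz1 : (1 : ℝ) ≤ z := by exact_mod_cast (by omega : 1 ≤ z)
  have hl5 : 0 < Real.log ((z : ℝ) + 1) := Real.log_pos (by linarith)
  have hlz : Real.log N ≤ 4 * (B + 1) * Real.log (z + 1) := by
    have h3 : Real.log z ≤ Real.log (z + 1) := Real.log_le_log (by positivity) (by linarith)
    have h4 : 4 * ((B : ℝ) + 1) * Real.log z ≤ 4 * (B + 1) * Real.log (z + 1) := by gcongr
    linarith
  have hP : ∏ l ∈ Nat.primesLE z, (1 - ((#(C l) : ℕ) : ℝ) / l) ≤ 8 * (B + 1) / Real.log N := by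
    refine hprod.trans ?_
    rw [div_le_div_iff₀ hl5 hlogN]
    have h0 := h_pos p
    nlinarith
  have hsq : √(N : ℝ) ≤ 16 * (N / Real.log N) := by
    refine (sqrt_le_div N (by omega)).trans ?_
    have h1 : (N : ℝ) / Real.log N ^ 2 ≤ N / Real.log N := by
      apply div_le_div_of_nonneg_left hNr.le hlogN
      nlinarith
    linarith
  have hzB : (z : ℝ) ^ B ≤ √N := by
    apply Real.le_sqrt_of_sq_le
    have h1 : (z : ℝ) ^ (2 * (B + 1)) ≤ N := by exact_mod_cast hr1
    refine le_trans ?_ h1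
    rw [← pow_mul]
    exact pow_le_pow_right₀ hz1 (by omega)
  have hzN : (z : ℝ) ≤ √N := le_sqrt_nat hzz
  have hone : (1 : ℝ) ≤ N / Real.log N := by
    rw [le_div_iff₀ hlogN, one_mul]
    have := Real.log_le_sub_one_of_pos hNr
    linarith
  calc (#S : ℝ) ≤ #(sifted 0 N z C) + (z + 1) := hcard
    _ ≤ (2 * (N : ℝ) * ∏ l ∈ Nat.primesLE z, (1 - ((#(C l) : ℕ) : ℝ) / l) + (z : ℝ) ^ B)
        + (z + 1) := by gcongr
    _ ≤ (2 * (N : ℝ) * (8 * (B + 1) / Real.log N) + 16 * (N / Real.log N))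
        + (16 * (N / Real.log N) + N / Real.log N) := by
        have := mul_le_mul_of_nonneg_left hP (by positivity : (0 : ℝ) ≤ 2 * N)
        linarith
    _ = _ := by ring

end Pool.Agent.helper85.SQ
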