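import Mathlib.Data.Nat.ChineseRemainder
import Mathlib.Data.Nat.Factorization.Basic
import Mathlib.Tactic

/-!
# A class `u` mod `M` with `u` and `8 u² - 1` units
-/

namespace Pool.Agent.helper85.SQ

theorem exists_u (M : ℕ) (hM : 0 < M) : ∃ u : ℕ, 0 < u ∧ Nat.Coprime u M ∧
    Nat.Coprime (8 * u ^ 2 - 1) M := by
  obtain ⟨k, m, hm7, hMk⟩ := Nat.exists_eq_pow_mul_and_not_dvd hM.ne' 7 (by norm_num)
  have hcop : Nat.Coprime (7 ^ k) m := by
    apply Nat.Coprime.pow_left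
    exact (Nat.Prime.coprime_iff_not_dvd (by norm_num)).mpr hm7
  obtain ⟨v, hv1, hv2⟩ := Nat.chineseRemainder hcop 2 1
  have hu1 : v + M ≡ 2 [MOD 7 ^ k] := by
    have : v + M ≡ 2 + 0 [MOD 7 ^ k] :=
      Nat.ModEq.add hv1 (Nat.modEq_zero_iff_dvd.mpr (hMk ▸ dvd_mul_right _ _))
    simpa using this
  have hu2 : v + M ≡ 1 [MOD m] := by
    have : v + M ≡ 1 + 0 [MOD m] :=
      Nat.ModEq.add hv2 (Nat.modEq_zero_iff_dvd.mpr (hMk ▸ dvd_mul_left _ _))
    simpa using this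
  set u := v + M with hu
  have hu0 : 0 < u := by omega
  have h8 : 8 * u ^ 2 - 1 + 1 = 8 * u ^ 2 := by
    have : 1 ≤ u ^ 2 := Nat.one_le_pow _ _ hu0
    omega
  -- prime divisors
  have key : ∀ p : ℕ, p.Prime → p ∣ M → ¬ p ∣ u ∧ ¬ p ∣ 8 * u ^ 2 - 1 := by
    intro p hp hpM
    rw [hMk] at hpM
    rcases (Nat.Prime.dvd_mul hp).mp hpM with h | h
    · have h7 : p = 7 := (Nat.prime_dvd_prime_iff_eq hp (by norm_num)).mp (hp.dvd_of_dvd_pow h)
      subst h7
      have h2 : u ≡ 2 [MOD 7] := hu1.of_dvd h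
      constructor
      · intro h3
        have := (Nat.modEq_zero_iff_dvd.mpr h3).symm.trans h2
        revert this; decide
      · intro h3
        have h4 : 8 * u ^ 2 ≡ 8 * 2 ^ 2 [MOD 7] := (h2.pow 2).mul_left 8
        have h5 : 8 * u ^ 2 - 1 + 1 ≡ 0 + 1 [MOD 7] :=
          (Nat.modEq_zero_iff_dvd.mpr h3).add_right 1
        rw [h8] at h5
        have := h4.symm.trans h5
        revert this; decide
    · have h2 : u ≡ 1 [MOD p] := hu2.of_dvd h
      have hp2 := hp.two_le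
      constructor
      · intro h3
        have h4 := (Nat.modEq_zero_iff_dvd.mpr h3).symm.trans h2
        have h5 : p ∣ 1 := (Nat.modEq_zero_iff_dvd.mp h4.symm)
        exact hp.one_lt.ne' (Nat.dvd_one.mp h5)
      · intro h3
        have h4 : 8 * u ^ 2 ≡ 8 * 1 ^ 2 [MOD p] := (h2.pow 2).mul_left 8
        have h5 : 8 * u ^ 2 - 1 + 1 ≡ 0 + 1 [MOD p] :=
          (Nat.modEq_zero_iff_dvd.mpr h3).add_right 1
        rw [h8] at h5
        have h6 : 0 + 1 ≡ 7 + 1 [MOD p] := h5.symm.trans h4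
        have h7 : 0 ≡ 7 [MOD p] := Nat.ModEq.add_right_cancel' 1 h6
        have h8' : p ∣ 7 := Nat.modEq_zero_iff_dvd.mp h7.symm
        have h9 : p = 7 := (Nat.prime_dvd_prime_iff_eq hp (by norm_num)).mp h8'
        exact hm7 (h9 ▸ h)
  refine ⟨u, hu0, ?_, ?_⟩
  · exact Nat.coprime_of_dvd fun p hp h1 h2 => (key p hp h2).1 h1
  · exact Nat.coprime_of_dvd fun p hp h1 h2 => (key p hp h2).2 h1

end Pool.Agent.helper85.SQ
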