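import Pool.Agent.helper85.SQ.Defs
import Mathlib.NumberTheory.Chebyshev

/-!
# From `Λ` to primes
-/

namespace Pool.Agent.helper85.SQ

open Finset ArithmeticFunction

lemma FC_card_primeFactors (n : ℕ) (hn : n ≠ 0) : (2 : ℝ) ^ #n.primeFactors ≤ n := by
  have h1 : ∏ p ∈ n.primeFactors, 2 ≤ ∏ p ∈ n.primeFactors, p :=
    prod_le_prod' fun p hp => (Nat.prime_of_mem_primeFactors hp).two_le
  rw [prod_const] at h1
  have h2 : ∏ p ∈ n.primeFactors, p ≤ n := Nat.le_of_dvd (Nat.pos_of_ne_zero hn)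
    (Nat.prod_primeFactors_dvd n)
  exact_mod_cast h1.trans h2

theorem count_ge (M u : ℕ) (hM : 0 < M) (hu : Nat.Coprime u M) (X P N : ℕ) (hX : 0 < X)
    (hP : 0 < P) (hN : N = X * (P ^ 2 / 4)) (hN2 : 2 ≤ N) :
    ∑ p ∈ PP M u P, ∑ n ∈ Ioc 0 N with n ≡ 8 * u ^ 2 - 1 [MOD M] ∧ n ≡ p ^ 2 - 1 [MOD p ^ 2],
          vonMangoldt n
      ≤ Real.log N * ∑ p ∈ PP M u P,
        (#{a ∈ Ioc 0 X | a ≡ 8 [MOD M] ∧ (a * p ^ 2 - 1).Prime} : ℝ)
        + 10 * (√N * Real.log N ^ 2) := by
  classical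
  have hNr : (0 : ℝ) < N := by exact_mod_cast (by omega : 0 < N)
  have hlogN : 0 < Real.log N := Real.log_pos (by exact_mod_cast (by omega : 1 < N))
  have hpp : ∀ p ∈ PP M u P, p.Prime ∧ P / 2 < p ∧ p ≤ P ∧ p ≡ u [MOD M] := by
    intro p hp
    rw [PP, mem_filter, mem_Ioc] at hp
    exact ⟨hp.2.1, hp.1.1, hp.1.2, hp.2.2⟩
  -- split according to primality
  have hsplit : ∀ p ∈ PP M u P,
      ∑ n ∈ Ioc 0 N with n ≡ 8 * u ^ 2 - 1 [MOD M] ∧ n ≡ p ^ 2 - 1 [MOD p ^ 2], vonMangoldt n
      ≤ Real.log N * (#{a ∈ Ioc 0 X | a ≡ 8 [MOD M] ∧ (a * p ^ 2 - 1).Prime} : ℝ)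
        + ∑ n ∈ Ioc 0 N with ¬ n.Prime, (if p ∣ n + 1 then vonMangoldt n else 0) := by
    intro p hp
    obtain ⟨hpr, hp1, hp2, hpu⟩ := hpp p hp
    have hp2pos : 0 < p ^ 2 := pow_pos hpr.pos 2
    rw [← sum_filter_add_sum_filter_not _ (fun n => n.Prime)]
    refine add_le_add ?_ ?_
    · rw [filter_filter]
      set T := {n ∈ Ioc 0 N | (n ≡ 8 * u ^ 2 - 1 [MOD M] ∧ n ≡ p ^ 2 - 1 [MOD p ^ 2]) ∧ n.Prime}
        with hT
      have h1 : ∑ n ∈ T, vonMangoldt n ≤ ∑ n ∈ T, Real.log N := by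
        refine sum_le_sum fun n hn => ?_
        rw [hT, mem_filter, mem_Ioc] at hn
        rw [vonMangoldt_apply_prime hn.2.2]
        exact Real.log_le_log (by exact_mod_cast hn.1.1) (by exact_mod_cast hn.1.2)
      rw [sum_const, nsmul_eq_mul, mul_comm] at h1
      refine h1.trans (mul_le_mul_of_nonneg_left ?_ hlogN.le)
      have hcard : #T ≤ #{a ∈ Ioc 0 X | a ≡ 8 [MOD M] ∧ (a * p ^ 2 - 1).Prime} := by
        have hkey : ∀ n ∈ T, (n + 1) / p ^ 2 * p ^ 2 = n + 1 := by
          intro n hn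
          rw [hT, mem_filter, mem_Ioc] at hn
          apply Nat.div_mul_cancel
          have h2 : n + 1 ≡ p ^ 2 - 1 + 1 [MOD p ^ 2] := hn.2.1.2.add_right 1
          rw [Nat.sub_add_cancel hp2pos] at h2
          exact Nat.modEq_zero_iff_dvd.mp (h2.trans (by
            rw [Nat.modEq_zero_iff_dvd]))
        refine card_le_card_of_injOn (fun n => (n + 1) / p ^ 2) ?_ ?_
        · intro n hn
          have hn' : n ∈ T := hn
          have hk := hkey n hn'
          rw [hT, mem_filter, mem_Ioc] at hn'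
          obtain ⟨⟨hn0, hnN⟩, ⟨hnM, hnp⟩, hnpr⟩ := hn'
          set a := (n + 1) / p ^ 2 with ha
          have ha0 : 0 < a := by
            rcases Nat.eq_zero_or_pos a with h | h
            · rw [h, zero_mul] at hk; omega
            · exact h
          have hsub : a * p ^ 2 - 1 = n := by omega
          rw [mem_coe, mem_filter, mem_Ioc]
          refine ⟨⟨ha0, ?_⟩, ?_, ?_⟩
          · -- a ≤ X
            have h3 : P ^ 2 / 4 + 1 ≤ p ^ 2 := by
              have h4 : P + 1 ≤ 2 * p := by omega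
              have h5 : (P + 1) ^ 2 ≤ (2 * p) ^ 2 := Nat.pow_le_pow_left h4 2
              have h6 : (P + 1) ^ 2 = P ^ 2 + 2 * P + 1 := by ring
              have h7 : (2 * p) ^ 2 = 4 * p ^ 2 := by ring
              have h8 : P ^ 2 / 4 * 4 ≤ P ^ 2 := Nat.div_mul_le_self _ _
              omega
            have h4 : a * p ^ 2 ≤ X * p ^ 2 := by
              calc a * p ^ 2 = n + 1 := hk
                _ ≤ N + 1 := by omega
                _ = X * (P ^ 2 / 4) + 1 := by rw [hN]
                _ ≤ X * (P ^ 2 / 4) + X := by omega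
                _ = X * (P ^ 2 / 4 + 1) := by ring
                _ ≤ X * p ^ 2 := Nat.mul_le_mul_left X h3
            exact Nat.le_of_mul_le_mul_right h4 hp2pos
          · -- a ≡ 8
            rcases Nat.eq_zero_or_pos u with hu0 | hu0
            · rw [hu0, Nat.coprime_zero_left] at hu
              rw [hu]
              exact Nat.modEq_one
            · have h8 : 8 * u ^ 2 - 1 + 1 = 8 * u ^ 2 := by
                have : 1 ≤ u ^ 2 := Nat.one_le_pow _ _ hu0
                omega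
              have h1 : n + 1 ≡ 8 * u ^ 2 [MOD M] := by
                have := hnM.add_right 1
                rwa [h8] at this
              have h2 : a * u ^ 2 ≡ 8 * u ^ 2 [MOD M] := by
                have h3 : a * p ^ 2 ≡ a * u ^ 2 [MOD M] := (hpu.pow 2).mul_left a
                rw [hk] at h3
                exact h3.symm.trans h1
              exact Nat.ModEq.cancel_right_of_coprime (Nat.Coprime.symm (hu.pow_left 2)) h2
          · show (a * p ^ 2 - 1).Prime
            rw [hsub]; exact hnpr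
        · intro n hn n' hn' h
          have h1 := hkey n hn
          have h2 := hkey n' hn'
          simp only at h
          rw [h, h2] at h1
          omega
      exact_mod_cast hcard
    · rw [filter_filter, sum_filter, sum_filter]
      refine sum_le_sum fun n hn => ?_
      by_cases h1 : (n ≡ 8 * u ^ 2 - 1 [MOD M] ∧ n ≡ p ^ 2 - 1 [MOD p ^ 2]) ∧ ¬ n.Prime
      · rw [if_pos h1, if_pos h1.2, if_pos]
        have h2 : n + 1 ≡ p ^ 2 - 1 + 1 [MOD p ^ 2] := h1.1.2.add_right 1
        rw [Nat.sub_add_cancel hp2pos] at h2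
        have h3 : p ^ 2 ∣ n + 1 := Nat.modEq_zero_iff_dvd.mp (h2.trans (by
            rw [Nat.modEq_zero_iff_dvd]))
        exact (Dvd.intro_left (p ^ 1) (by ring)).trans h3
      · rw [if_neg h1]
        split_ifs <;> first | exact le_rfl | exact vonMangoldt_nonneg
  refine (sum_le_sum hsplit).trans ?_
  rw [sum_add_distrib, ← mul_sum]
  refine add_le_add le_rfl ?_
  rw [sum_comm]
  have h1 : ∀ n ∈ {n ∈ Ioc 0 N | ¬ n.Prime},
      ∑ p ∈ PP M u P, (if p ∣ n + 1 then vonMangoldt n else 0)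
        ≤ (4 * Real.log N) * vonMangoldt n := by
    intro n hn
    rw [mem_filter, mem_Ioc] at hn
    rw [← sum_filter, sum_const, nsmul_eq_mul]
    refine mul_le_mul_of_nonneg_right ?_ vonMangoldt_nonneg
    have h2 : #{p ∈ PP M u P | p ∣ n + 1} ≤ #(n + 1).primeFactors := by
      refine card_le_card fun p hp => ?_
      rw [mem_filter] at hp
      exact Nat.mem_primeFactors.mpr ⟨(hpp p hp.1).1, hp.2, by omega⟩
    have h3 : (2 : ℝ) ^ #(n + 1).primeFactors ≤ (n + 1 : ℕ) :=
      FC_card_primeFactors (n + 1) (by omega)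
    have h4 : (((n + 1 : ℕ)) : ℝ) ≤ (N : ℝ) ^ 2 := by
      have : n + 1 ≤ N ^ 2 := by nlinarith [hn.1.2]
      exact_mod_cast this
    have h5 : (#(n + 1).primeFactors : ℝ) * Real.log 2 ≤ 2 * Real.log N := by
      have := Real.log_le_log (by positivity) (h3.trans h4)
      rw [Real.log_pow, Real.log_pow] at this
      exact_mod_cast this
    have h6 := Real.log_two_gt_d9
    have h7 : (#{p ∈ PP M u P | p ∣ n + 1} : ℝ) ≤ #(n + 1).primeFactors := by exact_mod_cast h2
    have h8 : (0 : ℝ) ≤ #(n + 1).primeFactors := Nat.cast_nonneg _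
    nlinarith
  refine (sum_le_sum h1).trans ?_
  rw [← mul_sum]
  have h2 := Chebyshev.psi_sub_theta_eq_sum_not_prime (N : ℝ)
  rw [Nat.floor_natCast] at h2
  rw [← h2]
  have h3 : Chebyshev.psi (N : ℝ) - Chebyshev.theta N ≤ 2 * √N * Real.log N :=
    Chebyshev.psi_sub_theta_le (by exact_mod_cast (by omega : 1 ≤ N))
  calc 4 * Real.log N * (Chebyshev.psi (N : ℝ) - Chebyshev.theta N)
      ≤ 4 * Real.log N * (2 * √N * Real.log N) := by gcongr
    _ = 8 * (√N * Real.log N ^ 2) := by ring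
    _ ≤ 10 * (√N * Real.log N ^ 2) := by
        have : 0 ≤ √(N : ℝ) * Real.log N ^ 2 := by positivity
        linarith

end Pool.Agent.helper85.SQ
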